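import Pool.Agent.X238.Plac.Sigma

set_option autoImplicit false

/-!
# Recursive total orders whose plactic monoid has an undecidable Diophantine problem

1. There is a recursive total order `L` such that for every recursive total order `L'` which is
order isomorphic to `L` (in particular for `L` itself) the Diophantine problem for `P(L')` is
undecidable.

2. For every recursively enumerable set `A` of natural numbers there is a recursive total order `L`,
order isomorphic to the natural numbers with their usual order (the isomorphism need not be
computable), such that `A` is many-one reducible to the Diophantine problem for `P(L)`.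

The key is a system of four equations in one variable with constants `a < b`, namely
`abX = baX`, `Xab = Xba`, `aXa = Xaa`, `XaX = XXa`, which has a solution in `P(L)` if and only if
there is a letter strictly between `a` and `b`.
-/

namespace Pool.Agent.Results.MP_a663df_lc.RecursiveOrdersUndecidable

open Pool.Agent.X238.Plac

theorem result :
    (∃ L : RecOrder, ∀ L' : RecOrder,
      (∃ e : L.Carrier ≃ L'.Carrier, ∀ a b, L.less a b ↔ L'.less (e a) (e b)) →
        ¬ ComputablePred (Dioph L')) ∧
    (∀ A : ℕ → Prop, REPred A → ∃ L : RecOrder,
      (∃ e : L.Carrier ≃ ℕ, ∀ a b, L.less a b ↔ e a < e b) ∧ A ≤₀ Dioph L) :=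
  ⟨⟨ordZ, intrinsic⟩, reduction⟩

end Pool.Agent.Results.MP_a663df_lc.RecursiveOrdersUndecidable
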